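import Pool.Agent.W78.GA.Basic

/-!
# Project LC (helper912), task LC5: the ideal of the maximal order (helper711)
-/

set_option autoImplicit false
set_option linter.unusedSectionVars false

namespace Pool.Agent.N711.LC

open NumberField Finset
open Pool.Agent.W78.GA

variable {K : Type} [Field K] [NumberField K] {t c : ℤ} {φ : Qd t c →+* 𝓞 K} {f₀ : ℕ} {m : ℕ}
  {r₀ : ℤ}

/-- the ideal `{z : lat m r₀ z}` of the order -/
def LI (hr : (m : ℤ) ∣ r₀ ^ 2 - t * r₀ + c) : Ideal (Qd t c) where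
  carrier := {z | lat m r₀ z}
  add_mem' := by
    intro a b ha hb
    have h := dvd_add ha hb
    show (m : ℤ) ∣ (a + b).re + r₀ * (a + b).im
    rw [QuadraticAlgebra.re_add, QuadraticAlgebra.im_add]
    have e : a.re + b.re + r₀ * (a.im + b.im) = a.re + r₀ * a.im + (b.re + r₀ * b.im) := by ring
    rw [e]
    exact h
  zero_mem' := by
    show (m : ℤ) ∣ (0 : Qd t c).re + r₀ * (0 : Qd t c).im
    simp
  smul_mem' := by
    intro w z hz
    show lat m r₀ (w * z)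
    rw [mul_comm]
    exact lat_mul_left hr w hz

theorem mem_LI (hr : (m : ℤ) ∣ r₀ ^ 2 - t * r₀ + c) {z : Qd t c} : z ∈ LI hr ↔ lat m r₀ z :=
  Iff.rfl

/-- `f₀ a` is in the order -/
theorem mul_mem_map {I : Ideal (Qd t c)} (hf : ∀ w : 𝓞 K, ∃ z, φ z = (f₀ : 𝓞 K) * w) {a : 𝓞 K}
    (ha : a ∈ I.map φ) : ∃ l ∈ I, φ l = (f₀ : 𝓞 K) * a := by
  have h : ∀ w : 𝓞 K, ∃ l ∈ I, φ l = (f₀ : 𝓞 K) * (w * a) := by
    unfold Ideal.map at ha
    induction ha using Submodule.span_induction with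
    | mem x hx =>
      obtain ⟨l, hl, rfl⟩ := hx
      intro w
      obtain ⟨z, hz⟩ := hf w
      refine ⟨z * l, I.mul_mem_left z hl, ?_⟩
      rw [map_mul, hz, mul_assoc]
    | zero =>
      intro w
      exact ⟨0, I.zero_mem, by simp⟩
    | add x y _ _ hx hy =>
      intro w
      obtain ⟨l, h1, h2⟩ := hx w
      obtain ⟨l', h3, h4⟩ := hy w
      refine ⟨l + l', I.add_mem h1 h3, ?_⟩
      rw [map_add, h2, h4]
      ring
    | smul v x _ hx =>
      intro w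
      obtain ⟨l, h1, h2⟩ := hx (w * v)
      refine ⟨l, h1, ?_⟩
      rw [h2, smul_eq_mul]
      ring
  obtain ⟨l, h1, h2⟩ := h 1
  rw [one_mul] at h2
  exact ⟨l, h1, h2⟩

variable (hr : (m : ℤ) ∣ r₀ ^ 2 - t * r₀ + c)

/-- the ideal meets the order in `{z : lat m r₀ z}` -/
theorem lat_of_mem (hφ : Function.Injective φ) (hf : ∀ w : 𝓞 K, ∃ z, φ z = (f₀ : 𝓞 K) * w)
    (hc : Nat.Coprime m f₀) {z : Qd t c} (hz : φ z ∈ (LI hr).map φ) : lat m r₀ z := by
  obtain ⟨l, h1, h2⟩ := mul_mem_map hf hz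
  have h3 : l = (f₀ : Qd t c) * z := by
    apply hφ
    rw [h2, map_mul, map_natCast]
  rw [mem_LI, h3] at h1
  unfold lat at h1 ⊢
  rw [QuadraticAlgebra.re_mul, QuadraticAlgebra.im_mul, QuadraticAlgebra.re_natCast,
    QuadraticAlgebra.im_natCast] at h1
  have h4 : (m : ℤ) ∣ (f₀ : ℤ) * (z.re + r₀ * z.im) := by
    convert h1 using 1
    ring
  exact (Nat.isCoprime_iff_coprime.2 hc).dvd_of_dvd_mul_left h4

theorem mem_map_iff (hφ : Function.Injective φ) (hf : ∀ w : 𝓞 K, ∃ z, φ z = (f₀ : 𝓞 K) * w)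
    (hc : Nat.Coprime m f₀) {z : Qd t c} : φ z ∈ (LI hr).map φ ↔ lat m r₀ z :=
  ⟨lat_of_mem hr hφ hf hc, fun h => Ideal.mem_map_of_mem φ ((mem_LI hr).2 h)⟩

theorem lat_m : lat m r₀ ((m : ℕ) : Qd t c) := by
  unfold lat
  rw [QuadraticAlgebra.re_natCast, QuadraticAlgebra.im_natCast]
  simp

/-- the norm of the ideal -/
theorem absNorm_map (hφ : Function.Injective φ) (hf : ∀ w : 𝓞 K, ∃ z, φ z = (f₀ : 𝓞 K) * w)
    (hc : Nat.Coprime m f₀) (hm : 1 ≤ m) : Ideal.absNorm ((LI hr).map φ) = m := by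
  have : NeZero m := ⟨by omega⟩
  choose g hg using hf
  have hf' : ∀ w : 𝓞 K, ∃ z, φ z = (f₀ : 𝓞 K) * w := fun w => ⟨g w, hg w⟩
  set ψ : 𝓞 K →+ ZMod m :=
    { toFun := fun w => (((g w).re + r₀ * (g w).im : ℤ) : ZMod m)
      map_zero' := by
        have h1 : g 0 = 0 := by
          apply hφ
          rw [hg, mul_zero, map_zero]
        rw [h1]
        simp
      map_add' := by
        intro x y
        have h1 : g (x + y) = g x + g y := by
          apply hφ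
          rw [map_add, hg, hg, hg, mul_add]
        rw [h1, QuadraticAlgebra.re_add, QuadraticAlgebra.im_add]
        push_cast
        ring } with hψ
  have hcu : IsUnit (f₀ : ZMod m) := (ZMod.isUnit_iff_coprime f₀ m).2 hc.symm
  have hker : ψ.ker = ((LI hr).map φ).toAddSubgroup := by
    ext w
    rw [AddMonoidHom.mem_ker, Submodule.mem_toAddSubgroup]
    have h1 : ψ w = 0 ↔ lat m r₀ (g w) := by
      show (((g w).re + r₀ * (g w).im : ℤ) : ZMod m) = 0 ↔ _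
      rw [ZMod.intCast_zmod_eq_zero_iff_dvd]
      rfl
    rw [h1, ← mem_map_iff hr hφ hf' hc, hg]
    constructor
    · intro h2
      obtain ⟨a, b, hab⟩ := Nat.isCoprime_iff_coprime.2 hc
      have h3 : w = (b : 𝓞 K) * ((f₀ : 𝓞 K) * w) + (a : 𝓞 K) * w * (m : 𝓞 K) := by
        have h4 := congrArg (Int.cast : ℤ → 𝓞 K) hab
        push_cast at h4
        linear_combination (-w) * h4
      rw [h3]
      refine Ideal.add_mem _ (Ideal.mul_mem_left _ _ h2) (Ideal.mul_mem_left _ _ ?_)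
      have h5 := (mem_map_iff hr hφ hf' hc (z := ((m : ℕ) : Qd t c))).2 lat_m
      rwa [map_natCast] at h5
    · intro h2
      exact Ideal.mul_mem_left _ _ h2
  have hsurj : Function.Surjective ψ := by
    intro y
    obtain ⟨u, hu⟩ := hcu
    obtain ⟨n, hn⟩ := ZMod.intCast_surjective (((u⁻¹ : (ZMod m)ˣ) : ZMod m) * y)
    refine ⟨(n : 𝓞 K), ?_⟩
    have h1 : g (n : 𝓞 K) = ((f₀ : ℕ) : Qd t c) * ((n : ℤ) : Qd t c) := by
      apply hφ
      rw [hg, map_mul, map_natCast, map_intCast]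
    show (((g n).re + r₀ * (g n).im : ℤ) : ZMod m) = y
    rw [h1, QuadraticAlgebra.re_mul, QuadraticAlgebra.im_mul, QuadraticAlgebra.re_natCast,
      QuadraticAlgebra.im_natCast, QuadraticAlgebra.re_intCast, QuadraticAlgebra.im_intCast]
    push_cast
    rw [hn, ← hu]
    simp
  rw [Ideal.absNorm_eq_index, ← hker, AddSubgroup.index_ker]
  have h2 : ψ.range = ⊤ := AddMonoidHom.range_eq_top.2 hsurj
  rw [h2]
  have h3 : Nat.card (⊤ : AddSubgroup (ZMod m)) = Nat.card (ZMod m) :=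
    Nat.card_congr AddSubgroup.topEquiv.toEquiv
  rw [h3, Nat.card_zmod]

/-! ### conjugation -/

theorem mul_bar (hD : t ^ 2 < 4 * c) (z : Qd t c) : φ z * φ (star z) = ((nm z : ℕ) : 𝓞 K) := by
  rw [← map_mul, mul_star_self' hD, map_natCast]

theorem norm_nat (hN : ∀ z, Ideal.absNorm (Ideal.span {φ z}) = nm z) (n : ℕ) :
    Ideal.absNorm (Ideal.span {(n : 𝓞 K)}) = n ^ 2 := by
  have h := hN (n : Qd t c)
  rw [map_natCast, nm_natCast] at h
  exact h

/-- conjugation preserves divisibility by integers -/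
theorem bar_mem (hD : t ^ 2 < 4 * c) (hφ : Function.Injective φ)
    (hN : ∀ z, Ideal.absNorm (Ideal.span {φ z}) = nm z) {n : ℕ} (hn : n ≠ 0) {z : Qd t c}
    (hz : φ z ∈ Ideal.span {(n : 𝓞 K)}) : φ (star z) ∈ Ideal.span {(n : 𝓞 K)} := by
  obtain ⟨v, hv⟩ := Ideal.mem_span_singleton.1 hz
  by_cases h0 : v = 0
  · rw [h0, mul_zero] at hv
    have h1 : z = 0 := by
      apply hφ
      rw [hv, map_zero]
    rw [h1, star_zero, map_zero]
    exact Ideal.zero_mem _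
  · have hn' : (n : 𝓞 K) ≠ 0 := by exact_mod_cast hn
    have h1 : nm z = n ^ 2 * Ideal.absNorm (Ideal.span {v}) := by
      rw [← hN z, hv, ← Ideal.span_singleton_mul_span_singleton, map_mul, norm_nat hN]
    obtain ⟨v', hv'⟩ := Ideal.mem_span_singleton.1 (Ideal.absNorm_mem (Ideal.span {v}))
    have h2 := mul_bar hD z (φ := φ)
    rw [h1, hv] at h2
    push_cast at h2
    rw [hv'] at h2
    have h3 : (n : 𝓞 K) * v ≠ 0 := mul_ne_zero hn' h0
    rw [Ideal.mem_span_singleton]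
    refine ⟨v', ?_⟩
    apply mul_left_cancel₀ h3
    rw [h2]
    ring

theorem exists_comp (𝔟 : Ideal (𝓞 K)) : ∃ 𝔟' : Ideal (𝓞 K),
    𝔟 * 𝔟' = Ideal.span {((Ideal.absNorm 𝔟 : ℕ) : 𝓞 K)} := by
  have h : 𝔟 ∣ Ideal.span {((Ideal.absNorm 𝔟 : ℕ) : 𝓞 K)} := by
    rw [Ideal.dvd_span_singleton]
    exact Ideal.absNorm_mem 𝔟
  obtain ⟨𝔟', h'⟩ := h
  exact ⟨𝔟', h'.symm⟩

theorem coprime_of_norm {𝔟 : Ideal (𝓞 K)} {n : ℕ} (h : Nat.Coprime (Ideal.absNorm 𝔟) n) :
    IsCoprime 𝔟 (Ideal.span {(n : 𝓞 K)}) := by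
  rw [Ideal.isCoprime_iff_exists]
  obtain ⟨a, b, hab⟩ := Nat.isCoprime_iff_coprime.2 h
  refine ⟨(a : 𝓞 K) * (Ideal.absNorm 𝔟 : 𝓞 K), ?_, (b : 𝓞 K) * (n : 𝓞 K), ?_, ?_⟩
  · exact Ideal.mul_mem_left _ _ (Ideal.absNorm_mem 𝔟)
  · exact Ideal.mul_mem_left _ _ (Ideal.mem_span_singleton_self _)
  · exact_mod_cast congrArg (Int.cast : ℤ → 𝓞 K) hab

end Pool.Agent.N711.LC
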