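import Pool.Agent.N615.RC.RC6
import Pool.Agent.N603.RC.RC3
import Pool.Agent.N711.LC.Alg

/-!
# Project LC (helper912), task LC5: the class function (helper711)
-/

set_option autoImplicit false
set_option linter.unusedSectionVars false

namespace Pool.Agent.N711.LC

open NumberField Finset
open Pool.Agent.W78.GA
open Pool.Agent.N912.RC (CF)
open Pool.Agent.N615.RC (transport)

variable {K : Type} [Field K] [NumberField K] {t c : ℤ} {φ : Qd t c →+* 𝓞 K} {f₀ : ℕ} {m : ℕ}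
  {r₀ : ℤ} (hr : (m : ℤ) ∣ r₀ ^ 2 - t * r₀ + c)

/-- `𝔞 𝔟` or `𝔞` times the conjugate of `𝔟` has a generator in the order -/
def Gn (φ : Qd t c →+* 𝓞 K) (𝔟 : Ideal (𝓞 K)) : Prop :=
  ∃ z : Qd t c, lat m r₀ z ∧ (Ideal.span {φ z} = (LI hr).map φ * 𝔟 ∨
    ∃ 𝔠 : Ideal (𝓞 K), 𝔟 * 𝔠 = Ideal.span {((Ideal.absNorm 𝔟 : ℕ) : 𝓞 K)} ∧
      Ideal.span {φ z} = (LI hr).map φ * 𝔠)

open Classical in
/-- the class function -/
noncomputable def FL (φ : Qd t c →+* 𝓞 K) (𝔪 𝔟 : Ideal (𝓞 K)) : ℂ :=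
  if IsCoprime 𝔟 𝔪 ∧ Gn hr φ 𝔟 then 1 else 0

theorem lat_of_span (hφ : Function.Injective φ) (hf : ∀ w : 𝓞 K, ∃ z, φ z = (f₀ : 𝓞 K) * w)
    (hc : Nat.Coprime m f₀) {z : Qd t c} {𝔟 : Ideal (𝓞 K)}
    (h : Ideal.span {φ z} = (LI hr).map φ * 𝔟) : lat m r₀ z := by
  refine lat_of_mem hr hφ hf hc ?_
  have h1 : φ z ∈ (LI hr).map φ * 𝔟 := by
    rw [← h]
    exact Ideal.mem_span_singleton_self _
  have h2 : (LI hr).map φ * 𝔟 ≤ (LI hr).map φ := Ideal.mul_le_left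
  exact h2 h1

/-- an element which is `1` modulo `2 f₀` and its conjugate -/
theorem exists_bar (hD : t ^ 2 < 4 * c) (hφ : Function.Injective φ)
    (hN : ∀ z, Ideal.absNorm (Ideal.span {φ z}) = nm z)
    (hf : ∀ w : 𝓞 K, ∃ z, φ z = (f₀ : 𝓞 K) * w) (hf0 : 1 ≤ f₀) {x : 𝓞 K}
    (hx : x - 1 ∈ Ideal.span {((2 * f₀ : ℕ) : 𝓞 K)}) :
    ∃ ξ : Qd t c, φ ξ = x ∧ φ (star ξ) - 1 ∈ Ideal.span {((2 * f₀ : ℕ) : 𝓞 K)} := by
  obtain ⟨u, hu⟩ := Ideal.mem_span_singleton.1 hx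
  obtain ⟨z, hz⟩ := hf (2 * u)
  have h1 : φ z = x - 1 := by
    rw [hz, hu]
    push_cast
    ring
  refine ⟨1 + z, ?_, ?_⟩
  · rw [map_add, map_one, h1]
    ring
  · have h2 : φ (star (1 + z)) - 1 = φ (star z) := by
      rw [star_add, star_one, map_add, map_one]
      ring
    rw [h2]
    exact bar_mem hD hφ hN (by omega) (by rw [h1]; exact hx)

theorem Gn_mono (hD : t ^ 2 < 4 * c) (hφ : Function.Injective φ)
    (hN : ∀ z, Ideal.absNorm (Ideal.span {φ z}) = nm z)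
    (hf : ∀ w : 𝓞 K, ∃ z, φ z = (f₀ : 𝓞 K) * w) (hf0 : 1 ≤ f₀) (hc : Nat.Coprime m f₀)
    {𝔟 𝔟' : Ideal (𝓞 K)} {x y : 𝓞 K} (hb : 𝔟' ≠ ⊥) (hy : y ≠ 0)
    (hx1 : x - 1 ∈ Ideal.span {((2 * f₀ : ℕ) : 𝓞 K)})
    (hy1 : y - 1 ∈ Ideal.span {((2 * f₀ : ℕ) : 𝓞 K)})
    (h : Ideal.span {x} * 𝔟 = Ideal.span {y} * 𝔟') (hG : Gn hr φ 𝔟) : Gn hr φ 𝔟' := by
  obtain ⟨z, hz, h1 | ⟨𝔠, h2, h3⟩⟩ := hG
  · obtain ⟨z', k1, -⟩ := transport hf (𝔟 := (LI hr).map φ * 𝔟') hy hx1 hy1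
      (by rw [mul_left_comm, h, mul_left_comm]) h1
    exact ⟨z', lat_of_span hr hφ hf hc k1, Or.inl k1⟩
  · obtain ⟨𝔠', h4⟩ := exists_comp 𝔟'
    obtain ⟨ξ, a1, a2⟩ := exists_bar hD hφ hN hf hf0 hx1
    obtain ⟨υ, b1, b2⟩ := exists_bar hD hφ hN hf hf0 hy1
    have hυ : φ (star υ) ≠ 0 := by
      intro h5
      have h6 : star υ = 0 := by
        apply hφ
        rw [h5, map_zero]
      have h7 : υ = 0 := by
        rw [← star_star υ, h6, star_zero]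
      rw [h7, map_zero] at b1
      exact hy b1.symm
    have k1 : Ideal.span {φ (star ξ)} * 𝔠 = Ideal.span {φ (star υ)} * 𝔠' := by
      have k2 : nm ξ * Ideal.absNorm 𝔟 = nm υ * Ideal.absNorm 𝔟' := by
        have := congrArg Ideal.absNorm h
        rw [map_mul, map_mul, ← a1, ← b1, hN, hN] at this
        exact this
      have k3 : (Ideal.span {x} * 𝔟) * (Ideal.span {φ (star ξ)} * 𝔠) =
          Ideal.span {((nm ξ * Ideal.absNorm 𝔟 : ℕ) : 𝓞 K)} := by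
        rw [Nat.cast_mul, ← Ideal.span_singleton_mul_span_singleton, ← h2, ← mul_bar hD ξ (φ := φ),
          ← Ideal.span_singleton_mul_span_singleton, a1]
        ring
      have k4 : (Ideal.span {y} * 𝔟') * (Ideal.span {φ (star υ)} * 𝔠') =
          Ideal.span {((nm υ * Ideal.absNorm 𝔟' : ℕ) : 𝓞 K)} := by
        rw [Nat.cast_mul, ← Ideal.span_singleton_mul_span_singleton, ← h4, ← mul_bar hD υ (φ := φ),
          ← Ideal.span_singleton_mul_span_singleton, b1]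
        ring
      rw [k2, ← k4, h] at k3
      have k5 : Ideal.span {y} * 𝔟' ≠ 0 := by
        refine mul_ne_zero ?_ ?_
        · rw [Ideal.zero_eq_bot, ne_eq, Ideal.span_singleton_eq_bot]
          exact hy
        · rw [Ideal.zero_eq_bot]
          exact hb
      exact mul_left_cancel₀ k5 k3
    obtain ⟨z', k2, -⟩ := transport hf (𝔟 := (LI hr).map φ * 𝔠') hυ a2 b2
      (by rw [mul_left_comm, k1, mul_left_comm]) h3
    exact ⟨z', lat_of_span hr hφ hf hc k2, Or.inr ⟨𝔠', h4, k2⟩⟩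

theorem FL_cf (hD : t ^ 2 < 4 * c) (hφ : Function.Injective φ)
    (hN : ∀ z, Ideal.absNorm (Ideal.span {φ z}) = nm z)
    (hf : ∀ w : 𝓞 K, ∃ z, φ z = (f₀ : 𝓞 K) * w) (hf0 : 1 ≤ f₀) (hc : Nat.Coprime m f₀)
    (htop : Ideal.span {((2 * f₀ : ℕ) : 𝓞 K)} ≠ ⊤) :
    CF (Ideal.span {((2 * f₀ : ℕ) : 𝓞 K)})
      (FL hr φ (Ideal.span {((2 * f₀ : ℕ) : 𝓞 K)})) where
  supp 𝔟 h := by
    unfold FL
    rw [if_neg (fun h1 => h h1.1)]
  cls 𝔟 𝔟' x y ha hb hx hy hx1 hy1 h := by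
    have hne : ∀ 𝔠 : Ideal (𝓞 K), IsCoprime 𝔠 (Ideal.span {((2 * f₀ : ℕ) : 𝓞 K)}) → 𝔠 ≠ ⊥ := by
      rintro 𝔠 hc rfl
      rw [← Ideal.zero_eq_bot, isCoprime_zero_left, Ideal.isUnit_iff] at hc
      exact htop hc
    unfold FL
    congr 1
    refine propext ⟨fun h1 => ⟨hb, ?_⟩, fun h1 => ⟨ha, ?_⟩⟩
    · exact Gn_mono hr hD hφ hN hf hf0 hc (hne _ hb) hy hx1 hy1 h h1.2
    · exact Gn_mono hr hD hφ hN hf hf0 hc (hne _ ha) hx hy1 hx1 h.symm h1.2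

theorem FL_nn (𝔪 𝔟 : Ideal (𝓞 K)) : 0 ≤ (FL hr φ 𝔪 𝔟).re ∧ (FL hr φ 𝔪 𝔟).im = 0 := by
  unfold FL
  split_ifs <;> simp

theorem FL_ne (hφ : Function.Injective φ)
    (hN : ∀ z, Ideal.absNorm (Ideal.span {φ z}) = nm z)
    (hf : ∀ w : 𝓞 K, ∃ z, φ z = (f₀ : 𝓞 K) * w) (hm : 1 ≤ m)
    (hc : Nat.Coprime m (2 * f₀)) : ∃ 𝔟, IsCoprime 𝔟 (Ideal.span {((2 * f₀ : ℕ) : 𝓞 K)}) ∧
      FL hr φ (Ideal.span {((2 * f₀ : ℕ) : 𝓞 K)}) 𝔟 ≠ 0 := by
  have hc' : Nat.Coprime m f₀ := hc.coprime_mul_left_right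
  have h1 : (LI hr).map φ ∣ Ideal.span {φ ((m : ℕ) : Qd t c)} := by
    rw [Ideal.dvd_span_singleton]
    exact Ideal.mem_map_of_mem φ ((mem_LI hr).2 lat_m)
  obtain ⟨𝔟, h2⟩ := h1
  have h3 : Ideal.absNorm 𝔟 = m := by
    have h4 := congrArg Ideal.absNorm h2
    rw [hN, map_mul, absNorm_map hr hφ hf hc' hm, nm_natCast, sq] at h4
    exact (Nat.eq_of_mul_eq_mul_left hm h4).symm
  have h5 : IsCoprime 𝔟 (Ideal.span {((2 * f₀ : ℕ) : 𝓞 K)}) :=
    coprime_of_norm (by rw [h3]; exact hc)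
  refine ⟨𝔟, h5, ?_⟩
  unfold FL
  rw [if_pos ⟨h5, _, lat_m, Or.inl h2⟩]
  exact one_ne_zero

theorem eq_of_dvd {𝔟 𝔟' : Ideal (𝓞 K)} {p : ℕ} (hp : p ≠ 0) (h1 : Ideal.absNorm 𝔟 = p)
    (h2 : Ideal.absNorm 𝔟' = p) (h : 𝔟 ∣ 𝔟') : 𝔟' = 𝔟 := by
  obtain ⟨𝔠, rfl⟩ := h
  rw [map_mul, h1] at h2
  have h3 : Ideal.absNorm 𝔠 = 1 := by
    have h4 : p * Ideal.absNorm 𝔠 = p * 1 := by rw [h2, mul_one]
    exact Nat.eq_of_mul_eq_mul_left (Nat.pos_of_ne_zero hp) h4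
  rw [Ideal.absNorm_eq_one_iff] at h3
  rw [h3, ← Ideal.one_eq_top, mul_one]

theorem prime_of {𝔟 : Ideal (𝓞 K)} {p : ℕ} (hp : p.Prime) (h : Ideal.absNorm 𝔟 = p) :
    Prime 𝔟 := by
  refine UniqueFactorizationMonoid.irreducible_iff_prime.1
    (Ideal.irreducible_of_irreducible_absNorm ?_)
  rw [h]
  exact hp

open Classical in
theorem sum_FL (hD : t ^ 2 < 4 * c) (hφ : Function.Injective φ)
    (hN : ∀ z, Ideal.absNorm (Ideal.span {φ z}) = nm z)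
    (hf : ∀ w : 𝓞 K, ∃ z, φ z = (f₀ : 𝓞 K) * w) (hm : 1 ≤ m)
    (hc : Nat.Coprime m f₀) {p : ℕ} (hp : p.Prime) (hp2 : ¬ p ∣ 2 * f₀)
    (hpD : ¬ (p : ℤ) ∣ 4 * c - t ^ 2) (hpm : ¬ p ∣ m) :
    ∑ᶠ 𝔭 ∈ {𝔭 : Ideal (𝓞 K) | Ideal.absNorm 𝔭 = p},
      FL hr φ (Ideal.span {((2 * f₀ : ℕ) : 𝓞 K)}) 𝔭 =
    if ∃ δ : Qd t c, nm δ = m * p ∧ lat m r₀ (star δ) then 2 else 0 := by
  have hp' : Prime (p : ℤ) := Nat.prime_iff_prime_int.1 hp
  have hN𝔞 := absNorm_map hr hφ hf hc hm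
  have hcop : ∀ 𝔟 : Ideal (𝓞 K), Ideal.absNorm 𝔟 = p →
      IsCoprime 𝔟 (Ideal.span {((2 * f₀ : ℕ) : 𝓞 K)}) := fun 𝔟 h =>
    coprime_of_norm (by rw [h]; exact (Nat.Prime.coprime_iff_not_dvd hp).2 hp2)
  split_ifs with hex
  · obtain ⟨δ, hδ1, hδ2⟩ := hex
    obtain ⟨z, hz⟩ : ∃ z, z = star δ := ⟨_, rfl⟩
    rw [← hz] at hδ2
    have hz1 : nm z = m * p := by rw [hz, nm_star, hδ1]
    have d1 : (LI hr).map φ ∣ Ideal.span {φ z} := by
      rw [Ideal.dvd_span_singleton]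
      exact Ideal.mem_map_of_mem φ ((mem_LI hr).2 hδ2)
    obtain ⟨𝔟₀, e0⟩ := d1
    have n0 : Ideal.absNorm 𝔟₀ = p := by
      have h4 := congrArg Ideal.absNorm e0
      rw [hN, map_mul, hN𝔞, hz1] at h4
      exact (Nat.eq_of_mul_eq_mul_left hm h4).symm
    obtain ⟨𝔟₁, e1⟩ := exists_comp 𝔟₀
    rw [n0] at e1
    have n1 : Ideal.absNorm 𝔟₁ = p := by
      have h4 := congrArg Ideal.absNorm e1
      rw [map_mul, n0, norm_nat hN, sq] at h4
      exact Nat.eq_of_mul_eq_mul_left hp.pos h4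
    have ne01 : 𝔟₀ ≠ 𝔟₁ := by
      intro heq
      have m0 : φ z ∈ 𝔟₀ := by
        have h1 : φ z ∈ (LI hr).map φ * 𝔟₀ := by
          rw [← e0]
          exact Ideal.mem_span_singleton_self _
        have h2 : (LI hr).map φ * 𝔟₀ ≤ 𝔟₀ := Ideal.mul_le_right
        exact h2 h1
      have m1 : φ (star z) ∈ 𝔟₁ := by
        have h1 : (LI hr).map φ * Ideal.span {φ (star z)} =
            Ideal.span {(m : 𝓞 K)} * 𝔟₁ := by
          have h2 : 𝔟₀ ≠ 0 := by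
            intro h3
            rw [h3, map_zero] at n0
            exact hp.ne_zero n0.symm
          apply mul_left_cancel₀ h2
          have h3 : Ideal.span {φ z} * Ideal.span {φ (star z)} =
              Ideal.span {(m : 𝓞 K)} * (𝔟₀ * 𝔟₁) := by
            rw [e1, Ideal.span_singleton_mul_span_singleton, mul_bar hD, hz1,
              Ideal.span_singleton_mul_span_singleton, Nat.cast_mul]
          rw [e0] at h3
          calc 𝔟₀ * ((LI hr).map φ * Ideal.span {φ (star z)}) =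
              (LI hr).map φ * 𝔟₀ * Ideal.span {φ (star z)} := by ring
            _ = Ideal.span {(m : 𝓞 K)} * (𝔟₀ * 𝔟₁) := h3
            _ = 𝔟₀ * (Ideal.span {(m : 𝓞 K)} * 𝔟₁) := by ring
        have h2 : 𝔟₁ ∣ (LI hr).map φ * Ideal.span {φ (star z)} := by
          rw [h1]
          exact dvd_mul_left _ _
        rcases (prime_of hp n1).dvd_or_dvd h2 with h3 | h3
        · exfalso
          have h4 := map_dvd Ideal.absNorm h3
          rw [n1, hN𝔞] at h4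
          exact hpm h4
        · rwa [Ideal.dvd_span_singleton] at h3
      rw [← heq] at m1
      have m2 : φ ((2 * z.re + t * z.im : ℤ) : Qd t c) ∈ 𝔟₀ := by
        have h1 : ((2 * z.re + t * z.im : ℤ) : Qd t c) = z + star z := by
          ext
          · rw [QuadraticAlgebra.re_intCast, QuadraticAlgebra.re_add, QuadraticAlgebra.re_star,
              Int.cast_id]
            ring
          · rw [QuadraticAlgebra.im_intCast, QuadraticAlgebra.im_add, QuadraticAlgebra.im_star]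
            ring
        rw [h1, map_add]
        exact Ideal.add_mem _ m0 m1
      have m3 : (p : ℤ) ∣ 2 * z.re + t * z.im := by
        have h1 : 𝔟₀ ∣ Ideal.span {φ ((2 * z.re + t * z.im : ℤ) : Qd t c)} := by
          rw [Ideal.dvd_span_singleton]
          exact m2
        have h2 := map_dvd Ideal.absNorm h1
        rw [n0, hN, nm_intCast] at h2
        exact Int.natCast_dvd.2 (hp.dvd_of_dvd_pow h2)
      have m4 := four_nm z
      rw [← nm_cast hD z, hz1] at m4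
      push_cast at m4
      have m5 : (p : ℤ) ∣ (4 * c - t ^ 2) * z.im ^ 2 := by
        obtain ⟨k, hk⟩ := m3
        refine ⟨4 * m - p * k ^ 2, ?_⟩
        rw [hk] at m4
        linear_combination -m4
      have m6 : (p : ℤ) ∣ z.im := by
        rcases hp'.dvd_or_dvd m5 with h1 | h1
        · exact absurd h1 hpD
        · exact hp'.dvd_of_dvd_pow h1
      have m7 : (p : ℤ) ∣ z.re := by
        have h1 : (p : ℤ) ∣ 2 * z.re := (Int.dvd_add_left (m6.mul_left t)).1 m3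
        rcases hp'.dvd_or_dvd h1 with h2 | h2
        · exfalso
          apply hp2
          have h3 : p ∣ 2 := by exact_mod_cast h2
          exact h3.mul_right f₀
        · exact h2
      obtain ⟨a, ha⟩ := m7
      obtain ⟨b, hb⟩ := m6
      have m8 := nm_cast hD z
      rw [hz1, ha, hb] at m8
      push_cast at m8
      have m9 : (p : ℤ) ∣ m := by
        refine ⟨a ^ 2 + t * a * b + c * b ^ 2, ?_⟩
        have hp0 : (p : ℤ) ≠ 0 := hp'.ne_zero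
        apply mul_left_cancel₀ hp0
        linear_combination m8
      exact hpm (by exact_mod_cast m9)
    have hset : {𝔭 : Ideal (𝓞 K) | Ideal.absNorm 𝔭 = p} = {𝔟₀, 𝔟₁} := by
      ext 𝔟
      rw [Set.mem_insert_iff, Set.mem_singleton_iff]
      constructor
      · intro h
        have h0 : Ideal.absNorm 𝔟 = p := h
        have h1 : 𝔟 ∣ 𝔟₀ * 𝔟₁ := by
          rw [e1, Ideal.dvd_span_singleton, ← h0]
          exact Ideal.absNorm_mem 𝔟
        rcases (prime_of hp h0).dvd_or_dvd h1 with h2 | h2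
        · exact Or.inl (eq_of_dvd hp.ne_zero h0 n0 h2).symm
        · exact Or.inr (eq_of_dvd hp.ne_zero h0 n1 h2).symm
      · rintro (rfl | rfl)
        · exact n0
        · exact n1
    rw [hset, finsum_mem_pair ne01]
    unfold FL
    have e2 : 𝔟₁ * 𝔟₀ = Ideal.span {((Ideal.absNorm 𝔟₁ : ℕ) : 𝓞 K)} := by
      rw [mul_comm, e1, n1]
    rw [if_pos ⟨hcop _ n0, z, hδ2, Or.inl e0⟩, if_pos ⟨hcop _ n1, z, hδ2, Or.inr ⟨𝔟₀, e2, e0⟩⟩]
    norm_num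
  · refine finsum_mem_of_eqOn_zero fun 𝔟 h𝔟 => ?_
    have h0 : Ideal.absNorm 𝔟 = p := h𝔟
    show FL hr φ _ 𝔟 = 0
    unfold FL
    rw [if_neg]
    rintro ⟨-, z, hz, h1⟩
    apply hex
    refine ⟨star z, ?_, by rw [star_star]; exact hz⟩
    rw [nm_star]
    rcases h1 with h1 | ⟨𝔠, h1, h2⟩
    · have h4 := congrArg Ideal.absNorm h1
      rw [hN, map_mul, hN𝔞, h0] at h4
      exact h4
    · have h4 := congrArg Ideal.absNorm h2
      have h5 := congrArg Ideal.absNorm h1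
      rw [h0, map_mul, h0, norm_nat hN, sq] at h5
      have h6 := Nat.eq_of_mul_eq_mul_left hp.pos h5
      rw [hN, map_mul, hN𝔞, h6] at h4
      exact h4

end Pool.Agent.N711.LC
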