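import Pool.Agent.N912.LC.Stm
import Pool.Agent.N711.LC.Cls

/-!
# Project LC (helper912), task LC5: density of the primes represented by an ideal class (helper711)
-/

set_option autoImplicit false
set_option linter.unusedSectionVars false

namespace Pool.Agent.N711.LC

open NumberField Filter Finset Topology
open Pool.Agent.Y773 (LI VM cc TPos)
open Pool.Agent.N603.RC (coe expand enum chi chi_pos chi_mod F_cls)
open Pool.Agent.Y773.IQ (T1 T1_cop pi1 pi1_coe ofM' ofM'_pos ofM'_supp exists_rep cls_card_le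
  cop_one ne_zero_of_cop)
open Pool.Agent.Y767 (Mq Mq_cop Mq_cancel Cls cls cls_eq cls_pi)
open Pool.Agent.Y773.G (IsModChar)
open Pool.Agent.W78.GA (Qd nm lat)
open Pool.Agent.N912.RC (CF S_RC0 S_RC1)
open Pool.Agent.N912.LC (S_LC5 Iv)
open Pool.Agent.N615.RC (tend_cmp)

/-- class functions are sums of characters, with the positivity of the coefficient of the principal
character if the function is nonnegative and not zero -/
theorem rc3' (K : Type) [Field K] [NumberField K] [IsTotallyComplex K]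
    (_hK : Module.finrank ℚ K = 2) (𝔪 : Ideal (𝓞 K)) (hbot : 𝔪 ≠ ⊥) (htop : 𝔪 ≠ ⊤)
    (F : Ideal (𝓞 K) → ℂ) (hF : CF 𝔪 F) :
    ∃ (n : ℕ) (η : Fin (n + 1) → (Ideal (𝓞 K) →*₀ ℂ)) (a : Fin (n + 1) → ℂ),
      (∀ i, IsModChar 𝔪 (fun _ => 0) (η i)) ∧ (∀ 𝔞, IsCoprime 𝔞 𝔪 → η 0 𝔞 = 1) ∧
      (∀ i, i ≠ 0 → ∃ 𝔞, IsCoprime 𝔞 𝔪 ∧ η i 𝔞 ≠ 1) ∧
      (∀ 𝔞, F 𝔞 = ∑ i, a i * η i 𝔞) ∧
      ((∀ 𝔞, 0 ≤ (F 𝔞).re ∧ (F 𝔞).im = 0) → (∃ 𝔞, IsCoprime 𝔞 𝔪 ∧ F 𝔞 ≠ 0) →
        0 < (a 0).re ∧ (a 0).im = 0) := by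
  classical
  have hfin := (cls_card_le hbot htop).1
  let _ := Fintype.ofFinite (Cls (pi1 htop))
  obtain ⟨n, e, he⟩ := enum (C := Cls (pi1 htop))
  let _ : Fintype (Cls (pi1 htop) →* ℂˣ) := Fintype.ofEquiv _ e
  choose rep hrep using exists_rep htop
  obtain ⟨Φ, hΦ⟩ : ∃ Φ : Cls (pi1 htop) → ℂ, ∀ c, Φ c = F (rep c : Ideal (𝓞 K)) := ⟨_, fun _ => rfl⟩
  have hFΦ : ∀ 𝔞 : Mq 𝔪, F (𝔞 : Ideal (𝓞 K)) = Φ (cls (pi1 htop) 𝔞) := by
    intro 𝔞
    rw [hΦ]
    exact F_cls htop hF (hrep _).symm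
  refine ⟨n, fun i => chi htop (e i), fun i => coe Φ (e i), fun i => chi_mod hbot htop _, ?_, ?_, ?_, ?_⟩
  · intro 𝔞 h𝔞
    show chi htop (e 0) 𝔞 = 1
    have h1 := chi_pos htop (e 0) ⟨𝔞, h𝔞⟩
    rw [he, MonoidHom.one_apply, Units.val_one] at h1
    rw [he]
    exact h1
  · intro i hi
    have hne : e i ≠ 1 := by
      intro h
      apply hi
      apply e.injective
      rw [h, he]
    obtain ⟨c, hc⟩ : ∃ c, e i c ≠ 1 := by
      by_contra hcon
      push Not at hcon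
      exact hne (MonoidHom.ext hcon)
    refine ⟨(rep c : Ideal (𝓞 K)), Mq_cop (rep c), ?_⟩
    show chi htop (e i) _ ≠ 1
    rw [chi_pos htop (e i) (rep c), hrep]
    intro h
    exact hc (Units.ext h)
  · intro 𝔞
    by_cases h𝔞 : IsCoprime 𝔞 𝔪
    · have h1 := hFΦ ⟨𝔞, h𝔞⟩
      have h2 : F 𝔞 = Φ (cls (pi1 htop) ⟨𝔞, h𝔞⟩) := h1
      rw [h2, expand Φ]
      refine (Fintype.sum_equiv e _ _ fun i => ?_).symm
      have h3 := chi_pos htop (e i) ⟨𝔞, h𝔞⟩
      show coe Φ (e i) * chi htop (e i) 𝔞 = _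
      rw [← h3]
    · rw [hF.supp 𝔞 h𝔞]
      refine (Finset.sum_eq_zero fun i _ => ?_).symm
      have h3 : chi htop (e i) 𝔞 = 0 := by
        by_contra h4
        exact h𝔞 ((ofM'_supp htop _ 𝔞).mp h4)
      show coe Φ (e i) * chi htop (e i) 𝔞 = 0
      rw [h3, mul_zero]
  · intro hpos hone
    show 0 < (coe Φ (e 0)).re ∧ (coe Φ (e 0)).im = 0
    have hcard : (0:ℝ) < Fintype.card (Cls (pi1 htop)) := by exact_mod_cast Fintype.card_pos
    have h1 : coe Φ (e 0) = (((∑ d, (Φ d).re) / Fintype.card (Cls (pi1 htop)) : ℝ) : ℂ) := by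
      unfold coe
      rw [he]
      simp only [MonoidHom.one_apply, Units.val_one, mul_one]
      push_cast
      congr 1
      refine Finset.sum_congr rfl fun d _ => ?_
      apply Complex.ext
      · rw [Complex.ofReal_re]
      · rw [Complex.ofReal_im, hΦ]
        exact (hpos _).2
    rw [h1, Complex.ofReal_re, Complex.ofReal_im]
    refine ⟨div_pos ?_ hcard, rfl⟩
    obtain ⟨𝔟, hb1, hb2⟩ := hone
    have h2 : F 𝔟 = Φ (cls (pi1 htop) ⟨𝔟, hb1⟩) := hFΦ ⟨𝔟, hb1⟩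
    refine Finset.sum_pos' (fun d _ => ?_) ⟨cls (pi1 htop) ⟨𝔟, hb1⟩, Finset.mem_univ _, ?_⟩
    · rw [hΦ]
      exact (hpos _).1
    · rw [← h2]
      refine lt_of_le_of_ne (hpos 𝔟).1 fun h4 => hb2 ?_
      exact Complex.ext h4.symm (hpos 𝔟).2


theorem lc5 (h0 : S_RC0) (h1 : S_RC1) : S_LC5 := by
  classical
  intro t c hD
  obtain ⟨K, _, _, _, φ, f₀, hK, hf₀, hφ, hN, hf⟩ := h0 t c hD
  refine ⟨2 * f₀, by omega, fun m r₀ hI hmM => ?_⟩
  have hm : 1 ≤ m := hI.pos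
  have hr := hI.dvd
  have hmf : Nat.Coprime m f₀ := hmM.coprime_mul_left_right
  set 𝔪 : Ideal (𝓞 K) := Ideal.span {((2 * f₀ : ℕ) : 𝓞 K)} with h𝔪
  have hbot : 𝔪 ≠ ⊥ := by
    rw [h𝔪, ne_eq, Ideal.span_singleton_eq_bot]
    have : (2 * f₀ : ℕ) ≠ 0 := by omega
    exact_mod_cast this
  have htop : 𝔪 ≠ ⊤ := by
    intro h
    have h2 : Ideal.absNorm 𝔪 = (2 * f₀) ^ 2 := by
      rw [h𝔪, Ideal.absNorm_span_singleton]
      have h4 : ((2 * f₀ : ℕ) : 𝓞 K) = algebraMap ℤ (𝓞 K) ((2 * f₀ : ℕ) : ℤ) := by simp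
      rw [h4, Algebra.norm_algebraMap, RingOfIntegers.rank, hK, Int.natAbs_pow, Int.natAbs_natCast]
    rw [h, Ideal.absNorm_top] at h2
    have : 2 ≤ 2 * f₀ := by omega
    nlinarith
  obtain ⟨n, η, a, g1, g2, g3, g4, g5⟩ := rc3' K hK 𝔪 hbot htop (FL hr φ 𝔪)
    (FL_cf hr hD hφ hN hf hf₀ hmf htop)
  obtain ⟨ha0, ha1⟩ := g5 (FL_nn hr 𝔪) (FL_ne hr hφ hN hf hm hmM)
  -- the sums of the characters
  have k1 : ∀ i, Tendsto (fun x : ℝ => (∑ n ∈ Icc 1 ⌊x⌋₊,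
      (ArithmeticFunction.vonMangoldt n : ℂ) * cc (η i) n) / (x : ℂ)) atTop
      (𝓝 (if i = 0 then 1 else 0)) := by
    intro i
    obtain ⟨δ, -, d1, d2, d3⟩ := h1 K 𝔪 _ (η i) (g1 i)
    by_cases hi : i = 0
    · rw [if_pos hi]
      have := d2 (by rw [hi]; exact g2)
      rw [this, Complex.ofReal_one] at d3
      exact d3
    · rw [if_neg hi]
      have := d1 (g3 i hi)
      rw [this, Complex.ofReal_zero] at d3
      exact d3
  set g : ℕ → ℂ := fun n => ∑ i, a i * ((ArithmeticFunction.vonMangoldt n : ℂ) * cc (η i) n)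
    with hg
  have k2 : Tendsto (fun x : ℝ => (∑ n ∈ Icc 1 ⌊x⌋₊, g n) / (x : ℂ)) atTop (𝓝 (a 0)) := by
    have h4 := tendsto_finsetSum (univ : Finset (Fin (n + 1)))
      fun i _ => (k1 i).const_mul (a i)
    have h5 : ∑ i, a i * (if i = 0 then (1 : ℂ) else 0) = a 0 := by
      rw [sum_eq_single 0]
      · rw [if_pos rfl, mul_one]
      · intro i _ hi
        rw [if_neg hi, mul_zero]
      · intro h
        exact absurd (mem_univ _) h
    rw [h5] at h4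
    refine h4.congr fun x => ?_
    rw [hg]
    simp only
    rw [sum_comm, sum_div]
    refine sum_congr rfl fun i _ => ?_
    rw [← mul_sum, mul_div_assoc]
  -- the values at the primes
  set D : ℕ := (4 * c - t ^ 2).natAbs with hDdef
  have hD0 : D ≠ 0 := by
    rw [hDdef, Int.natAbs_ne_zero]
    omega
  set M : ℕ := 2 * f₀ * (D * m) with hMdef
  have hM0 : M ≠ 0 := by positivity
  set r : ℕ → ℂ := fun n => if n.Prime ∧ ∃ δ : Qd t c, nm δ = m * n ∧ lat m r₀ (star δ) then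
    (Real.log n : ℂ) else 0 with hrdef
  have k3 : ∀ p : ℕ, p.Prime → ¬ p ∣ M → g p = 2 * r p := by
    intro p hp hpM
    have p1 : ¬ p ∣ 2 * f₀ := fun h => hpM (h.mul_right _)
    have p2 : ¬ (p : ℤ) ∣ 4 * c - t ^ 2 := by
      intro h
      apply hpM
      have h4 : p ∣ D := Int.natCast_dvd.1 h
      exact (h4.mul_right _).mul_left _
    have p3 : ¬ p ∣ m := fun h => hpM ((h.mul_left _).mul_left _)
    have h4 : g p = (Real.log p : ℂ) *
        (if ∃ δ : Qd t c, nm δ = m * p ∧ lat m r₀ (star δ) then 2 else 0) := by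
      rw [hg]
      simp only
      rw [ArithmeticFunction.vonMangoldt_apply_prime hp,
        ← sum_FL hr hD hφ hN hf hm hmf hp p1 p2 p3]
      have hfin : {𝔭 : Ideal (𝓞 K) | Ideal.absNorm 𝔭 = p}.Finite :=
        Ideal.finite_setOfPred_absNorm_eq p
      rw [finsum_mem_eq_finite_toFinset_sum _ hfin]
      have h5 : ∀ i, a i * ((Real.log p : ℂ) * cc (η i) p) =
          (Real.log p : ℂ) * ∑ 𝔭 ∈ hfin.toFinset, a i * η i 𝔭 := by
        intro i
        rw [Pool.Agent.Y772.DK.cc_prime (η i) hp, finsum_mem_eq_finite_toFinset_sum _ hfin,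
          ← mul_sum]
        ring
      rw [sum_congr rfl fun i _ => h5 i, ← mul_sum, sum_comm]
      congr 1
      refine sum_congr rfl fun 𝔭 _ => ?_
      rw [g4]
    rw [h4, hrdef]
    simp only
    by_cases h5 : ∃ δ : Qd t c, nm δ = m * p ∧ lat m r₀ (star δ)
    · rw [if_pos h5, if_pos ⟨hp, h5⟩, mul_comm]
    · rw [if_neg h5, if_neg (fun h => h5 h.2), mul_zero, mul_zero]
  -- the bound of the error
  have k4 : ∀ n, ‖g n‖ ≤ (∑ i, ‖a i‖ * Module.finrank ℚ K) * ArithmeticFunction.vonMangoldt n := by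
    intro n
    rw [sum_mul, hg]
    refine norm_sum_le_of_le _ fun i _ => ?_
    rw [norm_mul, norm_mul, Complex.norm_real,
      Real.norm_of_nonneg ArithmeticFunction.vonMangoldt_nonneg, mul_assoc]
    refine mul_le_mul_of_nonneg_left ?_ (norm_nonneg _)
    rw [mul_comm]
    exact mul_le_mul_of_nonneg_right (Pool.Agent.Y772.DK.norm_cc_le (η i)
      (fun 𝔞 => Pool.Agent.Y772.G.mc_le (g1 i) 𝔞) n) ArithmeticFunction.vonMangoldt_nonneg
  have k5 : ∀ n, ‖r n‖ ≤ ArithmeticFunction.vonMangoldt n := by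
    intro n
    rw [hrdef]
    simp only
    split_ifs with h
    · rw [ArithmeticFunction.vonMangoldt_apply_prime h.1, Complex.norm_real,
        Real.norm_of_nonneg (Real.log_natCast_nonneg n)]
    · rw [norm_zero]
      exact ArithmeticFunction.vonMangoldt_nonneg
  have k6 : Tendsto (fun x : ℝ => (∑ n ∈ Icc 1 ⌊x⌋₊, (g n - 2 * r n)) / (x : ℂ)) atTop
      (𝓝 0) := by
    refine tend_cmp hM0 (C := ∑ i, ‖a i‖ * Module.finrank ℚ K + 2) (by positivity)
      (fun n hn hnM => by rw [k3 n hn hnM, sub_self]) fun n => ?_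
    refine (norm_sub_le _ _).trans ?_
    rw [add_mul, norm_mul]
    have h4 := k4 n
    have h5 := mul_le_mul_of_nonneg_left (k5 n) (show (0 : ℝ) ≤ 2 by positivity)
    have h6 : ‖(2 : ℂ)‖ = 2 := by simp
    rw [h6]
    linarith
  have k7 : Tendsto (fun x : ℝ => (∑ n ∈ Icc 1 ⌊x⌋₊, r n) / (x : ℂ)) atTop
      (𝓝 (a 0 / 2)) := by
    have h4 := (k2.sub k6).div_const (2 : ℂ)
    rw [sub_zero] at h4
    refine h4.congr fun x => ?_
    rw [sum_sub_distrib, ← mul_sum]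
    have h5 : (2 : ℂ) ≠ 0 := two_ne_zero
    rw [← sub_div, sub_sub_cancel, mul_div_assoc, mul_div_cancel_left₀ _ h5]
  refine ⟨(a 0).re / 2, div_pos ha0 (by positivity), ?_⟩
  have k8 := (Complex.continuous_re.tendsto _).comp k7
  have h9 : (a 0 / 2 : ℂ).re = (a 0).re / 2 := by
    have : (2 : ℂ) = ((2 : ℝ) : ℂ) := by push_cast; rfl
    rw [this, Complex.div_ofReal_re]
  rw [h9] at k8
  refine k8.congr fun x => ?_
  have h10 : ∑ n ∈ Icc 1 ⌊x⌋₊, r n = ((∑ p ∈ (Icc 1 ⌊x⌋₊).filter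
      (fun p => p.Prime ∧ ∃ δ : Qd t c, nm δ = m * p ∧ lat m r₀ (star δ)), Real.log p : ℝ) :
      ℂ) := by
    rw [Complex.ofReal_sum, sum_filter]
  rw [Function.comp_apply, h10, Complex.div_ofReal_re, Complex.ofReal_re]

end Pool.Agent.N711.LC
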